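import Pool.Agent.Helper27_QL.Stmt

/-!
Basic facts on the tensor actions, integer tensors, and fixed integer tensors (module M6 of
the project MP_6429f2_nt).
-/

set_option autoImplicit false
open Matrix Polynomial MeasureTheory Set Filter Topology

namespace QL
namespace H13

section Basic

variable {ι : Type} [Fintype ι] [DecidableEq ι]

/-- matrix of the action on tensors -/
noncomputable def rm (b : Bool) (k : ℕ) (g : Matrix ι ι ℝ) :
    Matrix (Fin k → ι) (Fin k → ι) ℝ :=
  tens k (if b then g else (adjugate g)ᵀ)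

lemma inv_eq_adj {g : Matrix ι ι ℝ} (hg : g.det = 1) : g⁻¹ = adjugate g := by
  rw [Matrix.inv_def, hg]; simp

lemma ract_eq (b : Bool) (k : ℕ) {g : Matrix ι ι ℝ} (hg : g.det = 1) (w : (Fin k → ι) → ℝ) :
    ract b k g w = rm b k g *ᵥ w := by
  unfold ract rm
  rw [inv_eq_adj hg]

lemma tens_mul (k : ℕ) (A B : Matrix ι ι ℝ) : tens k (A * B) = tens k A * tens k B := by
  ext i j
  simp only [tens, Matrix.mul_apply]
  rw [Finset.prod_univ_sum]
  simp [Finset.prod_mul_distrib, Fintype.piFinset_univ]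

lemma tens_one (k : ℕ) : tens k (1 : Matrix ι ι ℝ) = 1 := by
  ext i j
  simp only [tens, Matrix.one_apply]
  by_cases h : i = j
  · simp [h]
  · rw [if_neg h]
    obtain ⟨a, ha⟩ := Function.ne_iff.1 h
    exact Finset.prod_eq_zero (Finset.mem_univ a) (if_neg ha)

lemma rm_mul (b : Bool) (k : ℕ) (g h : Matrix ι ι ℝ) : rm b k (g * h) = rm b k g * rm b k h := by
  unfold rm
  cases b
  · simp only [Bool.false_eq_true, if_false]
    rw [adjugate_mul_distrib, Matrix.transpose_mul, tens_mul]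
  · simp only [if_true]
    exact tens_mul _ _ _

lemma rm_one (b : Bool) (k : ℕ) : rm b k (1 : Matrix ι ι ℝ) = 1 := by
  unfold rm
  cases b
  · simp [tens_one]
  · simp [tens_one]

lemma rm_adj_mul (b : Bool) (k : ℕ) {g : Matrix ι ι ℝ} (hg : g.det = 1) :
    rm b k (adjugate g) * rm b k g = 1 := by
  rw [← rm_mul, adjugate_mul, hg, one_smul, rm_one]

lemma rm_mul_adj (b : Bool) (k : ℕ) {g : Matrix ι ι ℝ} (hg : g.det = 1) :
    rm b k g * rm b k (adjugate g) = 1 := by
  rw [← rm_mul, mul_adjugate, hg, one_smul, rm_one]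

lemma rm_adj_mulVec (b : Bool) (k : ℕ) {g : Matrix ι ι ℝ} (hg : g.det = 1)
    (v : (Fin k → ι) → ℝ) : rm b k (adjugate g) *ᵥ (rm b k g *ᵥ v) = v := by
  rw [Matrix.mulVec_mulVec, rm_adj_mul b k hg, Matrix.one_mulVec]

lemma rm_mulVec_adj (b : Bool) (k : ℕ) {g : Matrix ι ι ℝ} (hg : g.det = 1)
    (v : (Fin k → ι) → ℝ) : rm b k g *ᵥ (rm b k (adjugate g) *ᵥ v) = v := by
  rw [Matrix.mulVec_mulVec, rm_mul_adj b k hg, Matrix.one_mulVec]

lemma continuous_tens (k : ℕ) : Continuous (fun g : Matrix ι ι ℝ => tens k g) := by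
  refine continuous_matrix fun i j => ?_
  unfold tens
  exact continuous_finsetProd _ fun a _ => continuous_id.matrix_elem _ _

lemma continuous_rm (b : Bool) (k : ℕ) : Continuous (fun g : Matrix ι ι ℝ => rm b k g) := by
  unfold rm
  cases b
  · simp only [Bool.false_eq_true, if_false]
    exact (continuous_tens k).comp (Continuous.matrix_transpose (Continuous.matrix_adjugate continuous_id))
  · simp only [if_true]
    exact continuous_tens k

lemma det_adj {g : Matrix ι ι ℝ} (hg : g.det = 1) : (adjugate g).det = 1 := by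
  rw [det_adjugate, hg, one_pow]

/-! ### integers -/

lemma isClosed_range_iv {κ : Type} [Fintype κ] : IsClosed (range (iv : (κ → ℤ) → κ → ℝ)) := by
  have h : range (iv : (κ → ℤ) → κ → ℝ) = ⋂ i, {x : κ → ℝ | x i ∈ range ((↑) : ℤ → ℝ)} := by
    ext x
    simp only [mem_range, mem_iInter, mem_ofPred_eq]
    constructor
    · rintro ⟨w, rfl⟩ i
      exact ⟨w i, rfl⟩
    · intro h
      choose w hw using h
      exact ⟨w, funext hw⟩
  rw [h]
  exact isClosed_iInter fun i => Int.isClosedEmbedding_coe_real.isClosed_range.preimage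
    (continuous_apply i)

lemma iv_injective {κ : Type} : Function.Injective (iv : (κ → ℤ) → κ → ℝ) := by
  intro w w' h
  funext i
  have := congrFun h i
  simp only [iv] at this
  exact_mod_cast this

lemma iv_add {κ : Type} (w w' : κ → ℤ) : iv (w + w') = iv w + iv w' := by
  funext i; simp [iv]

lemma iv_sub {κ : Type} (w w' : κ → ℤ) : iv (w - w') = iv w - iv w' := by
  funext i; simp [iv]

lemma iv_neg {κ : Type} (w : κ → ℤ) : iv (-w) = - iv w := by
  funext i; simp [iv]

lemma iv_zero {κ : Type} : iv (0 : κ → ℤ) = 0 := by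
  funext i; simp [iv]

lemma iv_nsmul {κ : Type} (m : ℕ) (w : κ → ℤ) : iv (m • w) = (m : ℝ) • iv w := by
  funext i; simp [iv]

lemma one_le_norm_iv {κ : Type} [Fintype κ] {w : κ → ℤ} (hw : w ≠ 0) : 1 ≤ ‖iv w‖ := by
  obtain ⟨i, hi⟩ := Function.ne_iff.1 hw
  refine le_trans ?_ (norm_le_pi_norm _ i)
  simp only [iv, Real.norm_eq_abs]
  have : (1 : ℤ) ≤ |w i| := Int.one_le_abs hi
  exact_mod_cast this

lemma eq_zero_of_norm_iv_lt {κ : Type} [Fintype κ] {w : κ → ℤ} (hw : ‖iv w‖ < 1) : w = 0 := by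
  by_contra h
  exact absurd (one_le_norm_iv h) (not_le.2 hw)

lemma gam_lift {γ : Matrix ι ι ℝ} (hγ : γ ∈ Gam ι) :
    ∃ G : Matrix ι ι ℤ, γ = G.map (Int.castRingHom ℝ) := by
  choose G hG using hγ.2
  exact ⟨Matrix.of G, by ext i j; simp [hG]⟩

lemma gam_adj {γ : Matrix ι ι ℝ} (hγ : γ ∈ Gam ι) : adjugate γ ∈ Gam ι := by
  refine ⟨det_adj hγ.1, ?_⟩
  obtain ⟨G, hG⟩ := gam_lift hγ
  intro i j
  refine ⟨adjugate G i j, ?_⟩
  have h : adjugate (G.map (Int.castRingHom ℝ)) = (adjugate G).map (Int.castRingHom ℝ) :=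
    ((Int.castRingHom ℝ).map_adjugate G).symm
  rw [hG, h]
  simp

lemma gam_mul {γ γ' : Matrix ι ι ℝ} (h : γ ∈ Gam ι) (h' : γ' ∈ Gam ι) : γ * γ' ∈ Gam ι := by
  refine ⟨by rw [det_mul, h.1, h'.1, one_mul], fun i j => ?_⟩
  choose A hA using h.2
  choose B hB using h'.2
  refine ⟨∑ l, A i l * B l j, ?_⟩
  rw [Matrix.mul_apply]
  push_cast
  exact Finset.sum_congr rfl fun l _ => by rw [hA, hB]

lemma one_mem_gam : (1 : Matrix ι ι ℝ) ∈ Gam ι := by
  refine ⟨det_one, fun i j => ⟨if i = j then 1 else 0, ?_⟩⟩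
  rw [Matrix.one_apply]
  split_ifs <;> simp

lemma int_mulVec {κ κ' : Type} [Fintype κ] (A : Matrix κ' κ ℝ) (hA : ∀ i j, ∃ m : ℤ, A i j = m)
    (w : κ → ℤ) : ∃ w' : κ' → ℤ, A *ᵥ iv w = iv w' := by
  choose B hB using hA
  refine ⟨fun i => ∑ j, B i j * w j, ?_⟩
  funext i
  simp only [Matrix.mulVec, dotProduct, iv]
  push_cast
  exact Finset.sum_congr rfl fun j _ => by rw [hB]

lemma rm_gam (b : Bool) (k : ℕ) {γ : Matrix ι ι ℝ} (hγ : γ ∈ Gam ι) (w : (Fin k → ι) → ℤ) :
    ∃ w' : (Fin k → ι) → ℤ, rm b k γ *ᵥ iv w = iv w' := by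
  apply int_mulVec
  intro i j
  have key : ∀ A : Matrix ι ι ℝ, (∀ i j, ∃ m : ℤ, A i j = m) → ∃ m : ℤ, tens k A i j = m := by
    intro A hA
    choose B hB using hA
    refine ⟨∏ a, B (i a) (j a), ?_⟩
    unfold tens
    push_cast
    exact Finset.prod_congr rfl fun a _ => hB _ _
  unfold rm
  cases b
  · simp only [Bool.false_eq_true, if_false]
    exact key _ fun i j => (gam_adj hγ).2 j i
  · simp only [if_true]
    exact key _ hγ.2

end Basic

/-! ### rational span -/

lemma exists_nsmul_mem {κ : Type} [Fintype κ] [DecidableEq κ] (B : AddSubgroup (κ → ℤ))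
    (w : κ → ℤ) (hw : iv w ∈ Submodule.span ℝ (iv '' (B : Set (κ → ℤ)))) :
    ∃ m : ℕ, m ≠ 0 ∧ m • w ∈ B := by
  classical
  let q : (κ → ℤ) → κ → ℚ := fun w i => (w i : ℚ)
  have hq_add : ∀ a b, q (a + b) = q a + q b := fun a b => by funext i; simp [q]
  have hq_inj : Function.Injective q := by
    intro a b h
    funext i
    have := congrFun h i
    simp only [q] at this
    exact_mod_cast this
  -- step 1: `q w` is in the rational span
  have h1 : q w ∈ Submodule.span ℚ (q '' (B : Set (κ → ℤ))) := by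
    by_contra hcon
    obtain ⟨f, hf, hf'⟩ := Submodule.exists_dual_map_eq_bot_of_notMem hcon inferInstance
    have hf0 : ∀ b ∈ B, f (q b) = 0 := by
      intro b hb
      have : f (q b) ∈ (Submodule.span ℚ (q '' (B : Set (κ → ℤ)))).map f :=
        Submodule.mem_map_of_mem (Submodule.subset_span ⟨b, hb, rfl⟩)
      rw [hf'] at this
      exact (Submodule.mem_bot _).1 this
    -- coefficients
    let c : κ → ℚ := fun i => f (Pi.single i 1)
    have hfc : ∀ x : κ → ℚ, f x = ∑ i, x i * c i := by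
      intro x
      conv_lhs => rw [pi_eq_sum_univ' x]
      rw [map_sum]
      refine Finset.sum_congr rfl fun i _ => ?_
      rw [map_smul, smul_eq_mul]
    let F : (κ → ℝ) →ₗ[ℝ] ℝ := ∑ i, (c i : ℝ) • LinearMap.proj i
    have hF : ∀ x : κ → ℝ, F x = ∑ i, (c i : ℝ) * x i := by
      intro x; simp [F]
    have hFq : ∀ b : κ → ℤ, F (iv b) = ((f (q b) : ℚ) : ℝ) := by
      intro b
      rw [hF, hfc]
      push_cast
      refine Finset.sum_congr rfl fun i _ => ?_
      simp only [iv, q]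
      push_cast
      ring
    have hker : Submodule.span ℝ (iv '' (B : Set (κ → ℤ))) ≤ LinearMap.ker F := by
      rw [Submodule.span_le]
      rintro _ ⟨b, hb, rfl⟩
      simp only [SetLike.mem_coe, LinearMap.mem_ker]
      rw [hFq, hf0 b hb]
      simp
    have h2 : F (iv w) = 0 := hker hw
    rw [hFq] at h2
    exact hf (by exact_mod_cast h2)
  -- step 2: clear denominators
  have h2 : ∀ x ∈ Submodule.span ℚ (q '' (B : Set (κ → ℤ))),
      ∃ m : ℕ, m ≠ 0 ∧ ∃ b ∈ B, (m : ℚ) • x = q b := by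
    intro x hx
    induction hx using Submodule.span_induction with
    | mem x hx =>
      obtain ⟨b, hb, rfl⟩ := hx
      exact ⟨1, one_ne_zero, b, hb, by simp⟩
    | zero => exact ⟨1, one_ne_zero, 0, B.zero_mem, by funext i; simp [q]⟩
    | add x y _ _ ihx ihy =>
      obtain ⟨m1, hm1, b1, hb1, h1⟩ := ihx
      obtain ⟨m2, hm2, b2, hb2, h2⟩ := ihy
      refine ⟨m1 * m2, mul_ne_zero hm1 hm2, m2 • b1 + m1 • b2,
        B.add_mem (B.nsmul_mem hb1 _) (B.nsmul_mem hb2 _), ?_⟩
      have e1 : q (m2 • b1) = (m2 : ℚ) • q b1 := by funext i; simp [q]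
      have e2 : q (m1 • b2) = (m1 : ℚ) • q b2 := by funext i; simp [q]
      rw [hq_add, e1, e2, ← h1, ← h2]
      push_cast
      module
    | smul r x _ ih =>
      obtain ⟨m, hm, b, hb, h⟩ := ih
      refine ⟨m * r.den, mul_ne_zero hm r.den_nz, r.num • b, B.zsmul_mem hb _, ?_⟩
      have e1 : q (r.num • b) = (r.num : ℚ) • q b := by funext i; simp [q]
      rw [e1, ← h]
      have e2 : (r.den : ℚ) * r = r.num := by
        rw [mul_comm]; exact Rat.mul_den_eq_num r
      push_cast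
      rw [smul_smul, smul_smul, ← e2]
      congr 1
      ring
  obtain ⟨m, hm, b, hb, h⟩ := h2 _ h1
  refine ⟨m, hm, ?_⟩
  have : q (m • w) = q b := by
    rw [← h]; funext i; simp [q]
  rw [hq_inj this]
  exact hb

end H13
end QL
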