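import Pool.Agent.Helper27_QL.Stmt
import Pool.Agent.Helper60_QL.Basic

/-!
Sequences of returns and the invariant set of a pair (used in curve4, curveB of the project
MP_6429f2_nt).
-/

set_option autoImplicit false
open Matrix Polynomial MeasureTheory Set Filter Topology

namespace QL
namespace H13

variable {ι : Type} [Fintype ι] [DecidableEq ι] {d : ℕ}

/-- the set of lattices defined by a pair -/
def XX (p : W ι) (S : Set (ℝ × ℝ)) : Set (Matrix ι ι ℝ) := {x | x.det = 1 ∧ (x, p) ∈ DD S}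

lemma u_zero' (U : UAct ι d) : U.u 0 = 1 := by
  have h := U.add 0 0
  rw [add_zero] at h
  have h2 : adjugate (U.u 0) * U.u 0 = 1 := by
    rw [adjugate_mul, U.det_one, one_smul]
  calc U.u 0 = (adjugate (U.u 0) * U.u 0) * U.u 0 := by rw [h2, one_mul]
    _ = adjugate (U.u 0) * U.u 0 := by rw [mul_assoc, ← h]
    _ = 1 := h2

lemma inv_XX (U : UAct ι d) (p : W ι) (hp : ∀ w, act p (U.u w) = p) (S : Set (ℝ × ℝ))
    (hS : IsClosed S) : Inv U (XX p S) := by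
  refine ⟨?_, fun x hx => hx.1, fun w x hx => ⟨?_, ?_⟩, fun γ hγ x hx => ⟨?_, ?_⟩⟩
  · have h1 : IsClosed {x : Matrix ι ι ℝ | x.det = 1} :=
      isClosed_eq (Continuous.matrix_det continuous_id) continuous_const
    have h2 : IsClosed {x : Matrix ι ι ℝ | (x, p) ∈ DD S} :=
      (H60.DD_closed hS).preimage (continuous_id.prodMk continuous_const)
    exact h1.inter h2
  · rw [det_mul, U.det_one, hx.1, one_mul]
  · have h := H60.DD_left (g := U.u w) (h := U.u (-w)) hx.2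
      (by rw [← U.add, neg_add_cancel, u_zero'])
    rwa [hp] at h
  · rw [det_mul, hx.1, hγ.1, one_mul]
  · exact H60.DD_gam hx.2 hγ

lemma DD_of_mul {x g : Matrix ι ι ℝ} {p : W ι} {S : Set (ℝ × ℝ)} (h : (g * x, p) ∈ DD S) :
    (x, act p g) ∈ DD S := by
  intro v hv
  have := h v hv
  change val (act p g) (x *ᵥ v) ∈ S
  rw [H60.val_act, Matrix.mulVec_mulVec]
  exact this

/-- a sequence of returns -/
lemma seq_ret (U : UAct ι d) (Y : Set (Matrix ι ι ℝ)) (x x' : Matrix ι ι ℝ) (hx' : x' ∈ Y)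
    (hret : Ret U Y x) (ω : Fin d → ℝ) (hω : ω ≠ 0) :
    ∃ (v : ℕ → Fin d → ℝ) (T : ℕ → ℝ) (γ : ℕ → Matrix ι ι ℝ), (∀ i, γ i ∈ Gam ι) ∧
      Tendsto T atTop atTop ∧ (∀ i, 0 < T i) ∧ Tendsto (fun i => (T i)⁻¹ • v i) atTop (𝓝 ω) ∧
      Tendsto (fun i => U.u (v i) * x * γ i) atTop (𝓝 x') := by
  have h : ∀ i : ℕ, ∃ (v : Fin d → ℝ) (T : ℝ) (γ : Matrix ι ι ℝ), γ ∈ Gam ι ∧
      ((i : ℝ) + 1) ≤ T ∧ ‖v - T • ω‖ ≤ (1 / ((i : ℝ) + 1)) * T ∧
      ∀ a b, |(U.u v * x * γ - x') a b| < 1 / ((i : ℝ) + 1) := by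
    intro i
    obtain ⟨T0, hT0⟩ := hret x' hx' ω hω (1 / ((i : ℝ) + 1)) (by positivity)
    obtain ⟨v, hv, γ, hγ, hc⟩ := hT0 (max T0 ((i : ℝ) + 1)) (le_max_left _ _)
    exact ⟨v, _, γ, hγ, le_max_right _ _, hv, hc⟩
  choose v T γ hγ hT hv hc using h
  have hTpos : ∀ i, 0 < T i := fun i => lt_of_lt_of_le (by positivity) (hT i)
  refine ⟨v, T, γ, hγ, ?_, hTpos, ?_, ?_⟩
  · refine tendsto_atTop_mono (fun i => (le_trans (by linarith) (hT i) : (i : ℝ) ≤ T i)) ?_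
    exact tendsto_natCast_atTop_atTop
  · rw [tendsto_iff_norm_sub_tendsto_zero]
    refine squeeze_zero (fun i => norm_nonneg _) (fun i => ?_)
      (tendsto_one_div_add_atTop_nhds_zero_nat (𝕜 := ℝ))
    have e : (T i)⁻¹ • v i - ω = (T i)⁻¹ • (v i - T i • ω) := by
      rw [smul_sub, smul_smul, inv_mul_cancel₀ (hTpos i).ne', one_smul]
    rw [e, norm_smul, norm_inv, Real.norm_eq_abs, abs_of_pos (hTpos i),
      inv_mul_le_iff₀ (hTpos i), mul_comm]
    exact hv i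
  · refine tendsto_pi_nhds.2 fun a => tendsto_pi_nhds.2 fun b => ?_
    rw [tendsto_iff_norm_sub_tendsto_zero]
    refine squeeze_zero (fun i => norm_nonneg _) (fun i => ?_)
      (tendsto_one_div_add_atTop_nhds_zero_nat (𝕜 := ℝ))
    have := (hc i a b).le
    rw [Matrix.sub_apply] at this
    exact this

lemma mul_adj_one {x : Matrix ι ι ℝ} (hx : x.det = 1) : x * adjugate x = 1 := by
  rw [mul_adjugate, hx, one_smul]

lemma adj_mul_one {x : Matrix ι ι ℝ} (hx : x.det = 1) : adjugate x * x = 1 := by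
  rw [adjugate_mul, hx, one_smul]

/-- returns to the point itself, as elements close to one -/
lemma seq_ret_one (U : UAct ι d) (Y : Set (Matrix ι ι ℝ)) (hY : Inv U Y) (x : Matrix ι ι ℝ)
    (hx : x ∈ Y) (hret : Ret U Y x) (ω : Fin d → ℝ) (hω : ω ≠ 0) :
    ∃ (v : ℕ → Fin d → ℝ) (T : ℕ → ℝ) (γ g : ℕ → Matrix ι ι ℝ), (∀ i, γ i ∈ Gam ι) ∧
      Tendsto T atTop atTop ∧ (∀ i, 0 < T i) ∧ Tendsto (fun i => (T i)⁻¹ • v i) atTop (𝓝 ω) ∧
      Tendsto g atTop (𝓝 1) ∧ (∀ i, (g i).det = 1) ∧ (∀ i, U.u (v i) * x * γ i = g i * x) ∧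
      ∀ i, g i * x ∈ Y := by
  have hdx := hY.det_one x hx
  obtain ⟨v, T, γ, h1, h2, h3, h4, h5⟩ := seq_ret U Y x x hx hret ω hω
  refine ⟨v, T, γ, fun i => U.u (v i) * x * γ i * adjugate x, h1, h2, h3, h4, ?_, ?_, ?_, ?_⟩
  · have hc : Continuous fun y : Matrix ι ι ℝ => y * adjugate x := continuous_id.mul continuous_const
    have := (hc.tendsto x).comp h5
    rw [mul_adj_one hdx] at this
    exact this
  · intro i
    rw [det_mul, det_mul, det_mul, U.det_one, hdx, (h1 i).1, det_adjugate, hdx]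
    simp
  · intro i
    rw [mul_assoc (U.u (v i) * x * γ i), adj_mul_one hdx, mul_one]
  · intro i
    rw [mul_assoc (U.u (v i) * x * γ i), adj_mul_one hdx, mul_one]
    exact hY.right _ (h1 i) _ (hY.left _ _ hx)

end H13
end QL
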