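import Pool.Agent.Helper27_QL.StmtApp12
import Pool.Agent.Helper13_QL.RetSeq

/-!
Module curve4 of the project MP_6429f2_nt: assembly with `minset`.
-/

set_option autoImplicit false
open Matrix Polynomial MeasureTheory Set Filter Topology

namespace QL
namespace H13

lemma n4_zero : n4 0 0 0 = 1 := by
  ext i j
  fin_cases i <;> fin_cases j <;> simp [n4]

lemma shift {α : Type*} [TopologicalSpace α] {f : ℕ → α} {l : Filter α} (h : Tendsto f atTop l)
    (N : ℕ) : Tendsto (fun i => f (i + N)) atTop l :=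
  h.comp (tendsto_add_atTop_nat N)

theorem curve4 (hmin : minsetStatement) (hUex : U4_existsStatement) (hTL : TL4_factsStatement)
    (hfix : fixed4Statement) (hα : alpha4Statement)
    (hst : struct4Statement) (hb1 : beta1_4Statement) (hb2 : beta2_4Statement)
    (hb3 : beta3_4Statement) (hb4 : beta4_4Statement) : curve4Statement := by
  intro S hS x0 hx0 hD
  obtain ⟨U, hU⟩ := hUex
  obtain ⟨hUniq, hTfix, hns⟩ := hTL
  have hpU : ∀ w, act p4 (U.u w) = p4 := fun w => by rw [hU]; exact hfix.2.2.2.2.2.1 _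
  have hX := inv_XX U p4 hpU S hS
  obtain ⟨Y, hYX, hY, ⟨x, hxY, hxn⟩, hret⟩ := hmin U TL4 hUniq
    (fun T hT v hv w => by rw [hU]; exact hTfix _ T hT v hv) (XX p4 S) hX
    ⟨x0, ⟨hx0.1, hD⟩, hx0⟩
  have hr := hret x ⟨hxY, hxn⟩
  obtain ⟨hdx, hL, hc4, hR⟩ := (hns x).1 hxn
  have hω : (fun _ => 1 : Fin 1 → ℝ) ≠ 0 := by
    intro h
    have := congrFun h 0
    simp at this
  obtain ⟨v, T, γ, g, hγ, hT, hT0, hv, hg, hdet, heq, hgY⟩ :=
    seq_ret_one U Y hY x hxY hr (fun _ => 1) hω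
  have ht : Tendsto (fun i => v i 0) atTop atTop := by
    have h1 : Tendsto (fun i => (T i)⁻¹ * v i 0) atTop (𝓝 1) := (tendsto_pi_nhds.1 hv) 0
    have h2 := hT.atTop_mul_pos one_pos h1
    refine h2.congr fun i => ?_
    rw [← mul_assoc, mul_inv_cancel₀ (hT0 i).ne', one_mul]
  have heq4 : ∀ i, u4 (v i 0) * x * γ i = g i * x := fun i => by rw [← heq i, hU]
  have hDg : ∀ i, (x, act p4 (g i)) ∈ DD S := fun i => DD_of_mul (hYX (hgY i)).2
  suffices hcur : ∃ b μ α : ℝ[X], Curve4 S Y b μ α by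
    obtain ⟨b, μ, α, h⟩ := hcur
    exact ⟨U, Y, x, b, μ, α, hU, hY, ⟨hxY, hxn⟩, h⟩
  by_cases hfr : ∃ᶠ i in atTop, ∃ t, act (act p4 (g i)) (u4 t) ≠ act p4 (g i)
  · obtain ⟨φ, hφ, hφ'⟩ := Filter.extraction_of_frequently_atTop hfr
    exact hα S hS U hU Y x hr (fun i => g (φ i)) (hg.comp hφ.tendsto_atTop) (fun i => hdet _)
      (fun i => hDg _) hφ'
  · rw [not_frequently] at hfr
    obtain ⟨N, hN⟩ := eventually_atTop.1 hfr
    obtain ⟨i0, h, c, b, μ, α, hh, hc, hb, hμ, hα', hs⟩ := hst (fun i => g (i + N)) (shift hg N)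
      (fun i => hdet _) (fun i t => by
        have := hN (i + N) (Nat.le_add_left _ _)
        push Not at this
        exact this t)
    have hs' : ∀ i, 0 < c (i + i0) ∧ g (i + i0 + N) = h (i + i0) * z4 (c (i + i0)) *
        n4 (b (i + i0)) (μ (i + i0)) (α (i + i0)) ∧ act p4 (h (i + i0)) = p4 ∧
        (h (i + i0)).det = 1 := fun i => hs (i + i0) (Nat.le_add_left _ _)
    have hne := hb1 x hdx hc4 (fun i => v (i + i0 + N) 0) (shift (shift ht N) i0)
      (fun i => γ (i + i0 + N)) (fun i => hγ _) (fun i => h (i + i0)) (fun i => c (i + i0))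
      (fun i => b (i + i0)) (fun i => μ (i + i0)) (fun i => α (i + i0)) (shift hh i0)
      (shift hc i0) (shift hb i0) (shift hμ i0) (shift hα' i0) (fun i => (hs' i).1)
      (fun i => (hs' i).2.2.1) (fun i => (hs' i).2.2.2)
      (fun i => by rw [heq4, (hs' i).2.1])
    obtain ⟨N2, hN2⟩ := eventually_atTop.1 hne
    have hne' : ∀ i, h (i + N2 + i0) 0 1 ≠ 0 := fun i => hN2 (i + N2) (Nat.le_add_left _ _)
    have hA := hb2 U hU Y hY x hxY hr (fun i => h (i + N2 + i0)) (fun i => c (i + N2 + i0))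
      (fun i => b (i + N2 + i0)) (fun i => μ (i + N2 + i0)) (fun i => α (i + N2 + i0))
      (shift (shift hh i0) N2) (shift (shift hc i0) N2) (shift (shift hb i0) N2)
      (shift (shift hμ i0) N2) (shift (shift hα' i0) N2) (fun i => (hs' (i + N2)).1)
      (fun i => (hs' (i + N2)).2.2.1) (fun i => (hs' (i + N2)).2.2.2)
      (fun i => by rw [← (hs' (i + N2)).2.1]; exact hgY _) hne'
    have hDn : ∀ i, (x, act p4 (z4 (c (i + i0)) * n4 (b (i + i0)) (μ (i + i0)) (α (i + i0))))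
        ∈ DD S := by
      intro i
      have h1 := hDg (i + i0 + N)
      rw [(hs' i).2.1, mul_assoc, ← H60.act_act, (hs' i).2.2.1] at h1
      exact h1
    by_cases hfr2 : ∃ᶠ i in atTop, b (i + i0) ≠ 0 ∨ μ (i + i0) ≠ 0 ∨ α (i + i0) ≠ 0
    · obtain ⟨φ, hφ, hφ'⟩ := Filter.extraction_of_frequently_atTop hfr2
      exact hb3 S hS U hU Y hY x hxY hr hA (fun i => c (φ i + i0)) (fun i => b (φ i + i0))
        (fun i => μ (φ i + i0)) (fun i => α (φ i + i0)) ((shift hc i0).comp hφ.tendsto_atTop)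
        ((shift hb i0).comp hφ.tendsto_atTop) ((shift hμ i0).comp hφ.tendsto_atTop)
        ((shift hα' i0).comp hφ.tendsto_atTop) (fun i => (hs' _).1) hφ' (fun i => hDn _)
    · exfalso
      rw [not_frequently] at hfr2
      obtain ⟨N3, hN3⟩ := eventually_atTop.1 hfr2
      have hz : ∀ i, b (i + N3 + N2 + i0) = 0 ∧ μ (i + N3 + N2 + i0) = 0 ∧
          α (i + N3 + N2 + i0) = 0 := by
        intro i
        have := hN3 (i + N3 + N2) (by omega)
        push Not at this
        exact this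
      refine hb4 x hdx hL (fun i => v (i + N3 + N2 + i0 + N) 0)
        (shift (shift (shift (shift ht N) i0) N2) N3) (fun i => γ (i + N3 + N2 + i0 + N))
        (fun i => hγ _) (fun i => h (i + N3 + N2 + i0)) (fun i => c (i + N3 + N2 + i0))
        (shift (shift (shift hh i0) N2) N3) (shift (shift (shift hc i0) N2) N3)
        (fun i => (hs' _).1) (fun i => (hs' _).2.2.1) (fun i => (hs' _).2.2.2)
        (fun i => hne' (i + N3)) (fun i => ?_)
      obtain ⟨h1, h2, h3⟩ := hz i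
      rw [heq4, (hs' _).2.1, h1, h2, h3, n4_zero, mul_one]

end H13
end QL
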