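import Pool.Agent.Helper27_QL.StmtApp3
import Pool.Agent.Helper13_QL.RetSeq

/-!
Module curveB of the project MP_6429f2_nt: assembly with `minset`.
-/

set_option autoImplicit false
open Matrix Polynomial MeasureTheory Set Filter Topology

namespace QL
namespace H13

lemma goodB_symm {d : ℕ} {B : Matrix (Fin d) (Fin d) ℝ} (hB : GoodB d B) : Bᵀ = B := by
  rcases hB with rfl | ⟨_, hB⟩
  · exact Matrix.transpose_one
  · ext i j
    rw [Matrix.transpose_apply, hB, hB]
    by_cases h : i = j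
    · rw [if_pos h, if_pos h.symm]
    · rw [if_neg h, if_neg (Ne.symm h)]

lemma goodB_ones {d : ℕ} (hd : 2 ≤ d) {B : Matrix (Fin d) (Fin d) ℝ} (hB : GoodB d B) :
    (fun _ => 1 : Fin d → ℝ) ⬝ᵥ B *ᵥ (fun _ => 1 : Fin d → ℝ) ≠ 0 := by
  rcases hB with rfl | ⟨rfl, hB⟩
  · rw [Matrix.one_mulVec]
    simp only [dotProduct, mul_one, Finset.sum_const, Finset.card_univ, Fintype.card_fin,
      nsmul_eq_mul]
    have : (0 : ℝ) < d := by exact_mod_cast (by omega : 0 < d)
    exact this.ne'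
  · simp only [dotProduct, Matrix.mulVec, Fin.sum_univ_two, hB]
    norm_num

theorem curveB (hmin : minsetStatement) (hUex : UB_existsStatement) (hTL : TLB_factsStatement)
    (halg : algBStatement) (hbeta : betaBStatement) (halpha : alphaBStatement)
    (hcomp : compBStatement) : curveBStatement := by
  intro d hd B hB S hS x0 hx0 hD
  have hs := goodB_symm hB
  obtain ⟨U, hU⟩ := hUex d B hs
  obtain ⟨hUniq, hTfix, hns⟩ := hTL d hd B hB
  have hpU : ∀ w, act (pB B) (U.u w) = pB B := fun w => by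
    rw [hU]; exact (halg d B hs).2.2.2.1 w
  have hX := inv_XX U (pB B) hpU S hS
  have : Nonempty (I3 d) := ⟨Sum.inr 0⟩
  obtain ⟨Y, hYX, hY, ⟨x, hxY, hxn⟩, hret⟩ := hmin U (TLB B) hUniq
    (fun T hT v hv w => by rw [hU]; exact hTfix w T hT v hv) (XX (pB B) S) hX
    ⟨x0, ⟨hx0.1, hD⟩, hx0⟩
  have hr := hret x ⟨hxY, hxn⟩
  obtain ⟨hdx, hL, hR⟩ := (hns x).1 hxn
  have hω : (fun _ => 1 : Fin d → ℝ) ≠ 0 := by
    intro h
    have := congrFun h ⟨0, by omega⟩
    simp at this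
  obtain ⟨v, T, γ, g, hγ, hT, hT0, hv, hg, hdet, heq, hgY⟩ :=
    seq_ret_one U Y hY x hxY hr (fun _ => 1) hω
  have heqB : ∀ i, uB B (v i) * x * γ i = g i * x := fun i => by rw [← heq i, hU]
  have hDg : ∀ i, (x, act (pB B) (g i)) ∈ DD S := fun i => DD_of_mul (hYX (hgY i)).2
  obtain ⟨i0, hi0⟩ := hcomp d hd B hB x hxn v γ hγ g hg hdet heqB
  by_cases hfr : ∃ᶠ i in atTop, ∃ w, act (act (pB B) (g i)) (uB B w) ≠ act (pB B) (g i)
  · obtain ⟨φ, hφ, hφ'⟩ := Filter.extraction_of_frequently_atTop hfr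
    obtain ⟨b, c, hC, hcl⟩ := halpha d hd B hB S hS U hU Y x hr (fun i => g (φ (i + i0)))
      ((hg.comp hφ.tendsto_atTop).comp (tendsto_add_atTop_nat i0)) (fun i => hdet _)
      (fun i => hDg _) (fun i => hφ' _)
    obtain ⟨o, ho⟩ := hi0 b c hC.2.1 (fun t => by
      refine closure_mono ?_ (hcl t)
      rintro q ⟨i, w, rfl⟩
      refine ⟨φ (i + i0), ?_, w, rfl⟩
      have h1 := hφ.le_apply (x := i + i0)
      omega)
    exact ⟨U, Y, x, b, c, o, hU, hY, ⟨hxY, hxn⟩, hC, ho⟩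
  · exfalso
    rw [not_frequently] at hfr
    obtain ⟨N, hN⟩ := eventually_atTop.1 hfr
    refine hbeta d hd B hB x hdx hL (fun i => v (i + N)) (fun i => T (i + N))
      (hT.comp (tendsto_add_atTop_nat N)) (fun _ => 1) (goodB_ones hd hB)
      (hv.comp (tendsto_add_atTop_nat N)) (fun i => γ (i + N)) (fun i => hγ _)
      (fun i => g (i + N)) (hg.comp (tendsto_add_atTop_nat N)) (fun i => hdet _)
      (fun i => heqB _) (fun i w => ?_)
    have := hN (i + N) (Nat.le_add_left _ _)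
    push Not at this
    exact this w

end H13
end QL
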