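import Pool.Agent.Helper13_QL.Act

/-!
Fixed integer tensors and extremal points (module M6 of the project MP_6429f2_nt).
-/

set_option autoImplicit false
open Matrix Polynomial MeasureTheory Set Filter Topology

namespace QL
namespace H13

variable {ι : Type} [Fintype ι] [DecidableEq ι] {d : ℕ}

/-- the double orbit -/
def Orb (U : UAct ι d) (y : Matrix ι ι ℝ) : Set (Matrix ι ι ℝ) :=
  {x | ∃ w, ∃ γ ∈ Gam ι, x = U.u w * y * γ}

/-- the fixed integer tensors -/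
def Lam (U : UAct ι d) (b : Bool) (k : ℕ) (z : Matrix ι ι ℝ) : Set ((Fin k → ι) → ℝ) :=
  {v | (∃ w : (Fin k → ι) → ℤ, v = rm b k z *ᵥ iv w) ∧ ∀ s, rm b k (U.u s) *ᵥ v = v}

lemma u_zero (U : UAct ι d) : U.u 0 = 1 := by
  have h := U.add 0 0
  rw [add_zero] at h
  have h2 : adjugate (U.u 0) * U.u 0 = 1 := by
    rw [adjugate_mul, U.det_one, one_smul]
  calc U.u 0 = (adjugate (U.u 0) * U.u 0) * U.u 0 := by rw [h2, one_mul]
    _ = adjugate (U.u 0) * U.u 0 := by rw [mul_assoc, ← h]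
    _ = 1 := h2

lemma mem_orb_self (U : UAct ι d) (y : Matrix ι ι ℝ) : y ∈ Orb U y :=
  ⟨0, 1, one_mem_gam, by rw [u_zero, one_mul, mul_one]⟩

lemma det_orb (U : UAct ι d) {y x : Matrix ι ι ℝ} (hy : y.det = 1) (hx : x ∈ Orb U y) :
    x.det = 1 := by
  obtain ⟨w, γ, hγ, rfl⟩ := hx
  rw [det_mul, det_mul, U.det_one, hy, hγ.1, one_mul, one_mul]

lemma isClosed_det : IsClosed {x : Matrix ι ι ℝ | x.det = 1} :=
  isClosed_eq (Continuous.matrix_det continuous_id) continuous_const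

lemma det_closure_orb (U : UAct ι d) {y x : Matrix ι ι ℝ} (hy : y.det = 1)
    (hx : x ∈ closure (Orb U y)) : x.det = 1 :=
  closure_minimal (fun _ h => det_orb U hy h) isClosed_det hx

lemma fixed_adj (U : UAct ι d) {b : Bool} {k : ℕ} {v : (Fin k → ι) → ℝ} (s : Fin d → ℝ)
    (h : rm b k (U.u s) *ᵥ v = v) : rm b k (adjugate (U.u s)) *ᵥ v = v := by
  conv_lhs => rw [← h]
  exact rm_adj_mulVec b k (U.det_one s) v

lemma adj_orb (U : UAct ι d) {y : Matrix ι ι ℝ} (w : Fin d → ℝ) (γ : Matrix ι ι ℝ) :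
    adjugate (U.u w * y * γ) = adjugate γ * (adjugate y * adjugate (U.u w)) := by
  rw [adjugate_mul_distrib, adjugate_mul_distrib]

/-- fixed integer tensors survive in the closure of the orbit -/
lemma lam_sub (U : UAct ι d) {y z : Matrix ι ι ℝ} (hy : y.det = 1)
    (hz : z ∈ closure (Orb U y)) (b : Bool) (k : ℕ) : Lam U b k y ⊆ Lam U b k z := by
  rintro v ⟨⟨m, hm⟩, hfix⟩
  refine ⟨?_, hfix⟩
  have hcl : IsClosed {x : Matrix ι ι ℝ | rm b k (adjugate x) *ᵥ v ∈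
      range (iv : ((Fin k → ι) → ℤ) → (Fin k → ι) → ℝ)} := by
    apply isClosed_range_iv.preimage
    exact Continuous.matrix_mulVec
      ((continuous_rm b k).comp (Continuous.matrix_adjugate continuous_id)) continuous_const
  have hsub : Orb U y ⊆ {x : Matrix ι ι ℝ | rm b k (adjugate x) *ᵥ v ∈
      range (iv : ((Fin k → ι) → ℤ) → (Fin k → ι) → ℝ)} := by
    rintro x ⟨w, γ, hγ, rfl⟩
    simp only [mem_ofPred_eq]
    rw [adj_orb, rm_mul, rm_mul, ← Matrix.mulVec_mulVec, ← Matrix.mulVec_mulVec,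
      fixed_adj U w (hfix w), hm, rm_adj_mulVec b k hy]
    obtain ⟨w', hw'⟩ := rm_gam b k (gam_adj hγ) m
    exact ⟨w', hw'.symm⟩
  obtain ⟨w, hw⟩ := closure_minimal hsub hcl hz
  refine ⟨w, ?_⟩
  rw [hw, rm_mulVec_adj b k (det_closure_orb U hy hz)]

lemma lam_orb (U : UAct ι d) {y z : Matrix ι ι ℝ}
    (hz : z ∈ Orb U y) (b : Bool) (k : ℕ) : Lam U b k z ⊆ Lam U b k y := by
  rintro v ⟨⟨m, hm⟩, hfix⟩
  refine ⟨?_, hfix⟩
  obtain ⟨w, γ, hγ, rfl⟩ := hz
  obtain ⟨w', hw'⟩ := rm_gam b k hγ m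
  refine ⟨w', ?_⟩
  have h1 : v = rm b k (U.u w) *ᵥ (rm b k y *ᵥ iv w') := by
    rw [hm, rm_mul, rm_mul, ← Matrix.mulVec_mulVec, ← Matrix.mulVec_mulVec, hw']
  have h2 : rm b k (adjugate (U.u w)) *ᵥ v = rm b k y *ᵥ iv w' := by
    rw [h1, rm_adj_mulVec b k (U.det_one w)]
  rw [← h2, fixed_adj U w (hfix w)]

/-- the fixed integer tensors of `y` as a subgroup, seen from `z` -/
def Bsub (U : UAct ι d) (b : Bool) (k : ℕ) (y z : Matrix ι ι ℝ) : AddSubgroup ((Fin k → ι) → ℤ) where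
  carrier := {w | rm b k z *ᵥ iv w ∈ Lam U b k y}
  add_mem' := by
    rintro a c ⟨⟨m1, h1⟩, f1⟩ ⟨⟨m2, h2⟩, f2⟩
    refine ⟨⟨m1 + m2, ?_⟩, fun s => ?_⟩
    · rw [iv_add, iv_add, Matrix.mulVec_add, Matrix.mulVec_add, h1, h2]
    · rw [iv_add, Matrix.mulVec_add, Matrix.mulVec_add, f1, f2]
  zero_mem' := by
    refine ⟨⟨0, ?_⟩, fun s => ?_⟩
    · rw [iv_zero, Matrix.mulVec_zero, Matrix.mulVec_zero]
    · rw [iv_zero, Matrix.mulVec_zero, Matrix.mulVec_zero]
  neg_mem' := by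
    rintro a ⟨⟨m1, h1⟩, f1⟩
    refine ⟨⟨-m1, ?_⟩, fun s => ?_⟩
    · rw [iv_neg, iv_neg, Matrix.mulVec_neg, Matrix.mulVec_neg, h1]
    · rw [iv_neg, Matrix.mulVec_neg, Matrix.mulVec_neg, f1]

lemma lam_rev (U : UAct ι d) {y z : Matrix ι ι ℝ} (hy : y.det = 1)
    (hz : z ∈ closure (Orb U y)) (b : Bool) (k : ℕ) {v : (Fin k → ι) → ℝ}
    (hv : v ∈ Lam U b k z) (hspan : v ∈ Submodule.span ℝ (Lam U b k y)) : v ∈ Lam U b k y := by
  have hdz := det_closure_orb U hy hz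
  have hsub := lam_sub U hy hz b k
  obtain ⟨⟨w, hw⟩, hfix⟩ := hv
  -- the integer vector is in the real span of the subgroup
  have h1 : iv w ∈ Submodule.span ℝ (iv '' (Bsub U b k y z : Set ((Fin k → ι) → ℤ))) := by
    have h2 : (Matrix.mulVecLin (rm b k (adjugate z))) v ∈
        (Submodule.span ℝ (Lam U b k y)).map (Matrix.mulVecLin (rm b k (adjugate z))) :=
      Submodule.mem_map_of_mem hspan
    rw [Submodule.map_span] at h2
    have h3 : (Matrix.mulVecLin (rm b k (adjugate z))) v = iv w := by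
      rw [Matrix.mulVecLin_apply, hw, rm_adj_mulVec b k hdz]
    rw [h3] at h2
    refine Submodule.span_mono ?_ h2
    rintro _ ⟨v', hv', rfl⟩
    obtain ⟨⟨w', hw'⟩, _⟩ := hsub hv'
    refine ⟨w', ?_, ?_⟩
    · change rm b k z *ᵥ iv w' ∈ Lam U b k y
      rw [← hw']; exact hv'
    · rw [Matrix.mulVecLin_apply, hw', rm_adj_mulVec b k hdz]
  obtain ⟨m, hm, hmw⟩ := exists_nsmul_mem _ w h1
  have hmv : (m : ℝ) • v ∈ Lam U b k y := by
    have h4 : rm b k z *ᵥ iv (m • w) ∈ Lam U b k y := hmw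
    rwa [iv_nsmul, Matrix.mulVec_smul, ← hw] at h4
  -- approximate `z`
  have : FirstCountableTopology (Matrix ι ι ℝ) :=
    inferInstanceAs (FirstCountableTopology (ι → ι → ℝ))
  obtain ⟨zs, hzs, hlim⟩ := mem_closure_iff_seq_limit.1 hz
  have hmem : ∀ j, ∃ w' : (Fin k → ι) → ℤ, (m : ℝ) • v = rm b k (zs j) *ᵥ iv w' := fun j =>
    (lam_sub U hy (subset_closure (hzs j)) b k hmv).1
  choose w' hw' using hmem
  have hl : Tendsto (fun j => iv (m • w - w' j)) atTop (𝓝 0) := by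
    have e : ∀ j, iv (m • w - w' j) = (m : ℝ) • iv w - rm b k (adjugate (zs j)) *ᵥ ((m : ℝ) • v) := by
      intro j
      rw [iv_sub, iv_nsmul, hw' j, rm_adj_mulVec b k (det_orb U hy (hzs j))]
    simp_rw [e]
    have e2 : (0 : (Fin k → ι) → ℝ) = (m : ℝ) • iv w - rm b k (adjugate z) *ᵥ ((m : ℝ) • v) := by
      rw [Matrix.mulVec_smul, hw, rm_adj_mulVec b k hdz, sub_self]
    rw [e2]
    refine tendsto_const_nhds.sub ?_
    have hc : Continuous fun x : Matrix ι ι ℝ => rm b k (adjugate x) *ᵥ ((m : ℝ) • v) :=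
      Continuous.matrix_mulVec
        ((continuous_rm b k).comp (Continuous.matrix_adjugate continuous_id)) continuous_const
    exact (hc.tendsto z).comp hlim
  have hev : ∀ᶠ j in atTop, ‖iv (m • w - w' j)‖ < 1 := by
    have := hl.norm
    rw [norm_zero] at this
    exact this.eventually (gt_mem_nhds one_pos)
  obtain ⟨j, hj⟩ := hev.exists
  have h0 := eq_zero_of_norm_iv_lt hj
  have h5 : w' j = m • w := (sub_eq_zero.1 h0).symm
  have h6 : v = rm b k (zs j) *ᵥ iv w := by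
    have h7 := hw' j
    rw [h5, iv_nsmul, Matrix.mulVec_smul] at h7
    have hm0 : (m : ℝ) ≠ 0 := Nat.cast_ne_zero.2 hm
    exact smul_right_injective _ hm0 h7
  exact lam_orb U (hzs j) b k ⟨⟨w, h6⟩, hfix⟩

/-- the total rank of the fixed integer tensors -/
noncomputable def Sm (U : UAct ι d) (K : ℕ) (z : Matrix ι ι ℝ) : ℕ :=
  ∑ b : Bool, ∑ k ∈ Finset.range K, Module.finrank ℝ (Submodule.span ℝ (Lam U b k z))

lemma Sm_le (U : UAct ι d) (K : ℕ) (z : Matrix ι ι ℝ) :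
    Sm U K z ≤ ∑ _b : Bool, ∑ k ∈ Finset.range K, Module.finrank ℝ ((Fin k → ι) → ℝ) :=
  Finset.sum_le_sum fun _ _ => Finset.sum_le_sum fun _ _ => Submodule.finrank_le _

lemma exists_max {α : Type} (S : Set α) (hS : S.Nonempty) (f : α → ℕ) (M : ℕ) (hf : ∀ x, f x ≤ M) :
    ∃ y ∈ S, ∀ z ∈ S, f z ≤ f y := by
  have hne : (f '' S).Nonempty := hS.image f
  have hb : BddAbove (f '' S) := ⟨M, by rintro _ ⟨x, _, rfl⟩; exact hf x⟩
  obtain ⟨y, hy, hy'⟩ := Nat.sSup_mem hne hb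
  exact ⟨y, hy, fun z hz => hy' ▸ le_csSup hb ⟨z, hz, rfl⟩⟩

/-- existence of extremal points -/
lemma exists_extremal (U : UAct ι d) (L : List (Tube ι)) (K : ℕ) (X : Set (Matrix ι ι ℝ))
    (hX : Inv U X) (hne : (X ∩ ns L).Nonempty) :
    ∃ y ∈ X ∩ ns L, ∀ z ∈ closure (Orb U y) ∩ ns L, ∀ (b : Bool) (k : ℕ), k < K →
      Lam U b k z = Lam U b k y := by
  obtain ⟨y, hy, hmax⟩ := exists_max (X ∩ ns L) hne (Sm U K) _ (Sm_le U K)
  refine ⟨y, hy, ?_⟩
  rintro z ⟨hz, hzn⟩ b k hk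
  have hdy : y.det = 1 := hX.det_one y hy.1
  have hsubX : closure (Orb U y) ⊆ X := by
    apply closure_minimal _ hX.closed
    rintro x ⟨w, γ, hγ, rfl⟩
    exact hX.right γ hγ _ (hX.left w _ hy.1)
  have hle : ∀ (b : Bool) (k : ℕ), Submodule.span ℝ (Lam U b k y) ≤ Submodule.span ℝ (Lam U b k z) :=
    fun b k => Submodule.span_mono (lam_sub U hdy hz b k)
  have hfle : ∀ (b : Bool) (k : ℕ), Module.finrank ℝ (Submodule.span ℝ (Lam U b k y))
      ≤ Module.finrank ℝ (Submodule.span ℝ (Lam U b k z)) :=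
    fun b k => Submodule.finrank_mono (hle b k)
  have hSm : Sm U K z = Sm U K y := le_antisymm (hmax z ⟨hsubX hz, hzn⟩)
    (Finset.sum_le_sum fun b _ => Finset.sum_le_sum fun k _ => hfle b k)
  have h1 : ∀ b ∈ (Finset.univ : Finset Bool),
      ∑ k ∈ Finset.range K, Module.finrank ℝ (Submodule.span ℝ (Lam U b k y))
        = ∑ k ∈ Finset.range K, Module.finrank ℝ (Submodule.span ℝ (Lam U b k z)) :=
    (Finset.sum_eq_sum_iff_of_le fun b _ => Finset.sum_le_sum fun k _ => hfle b k).1 hSm.symm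
  have h2 := (Finset.sum_eq_sum_iff_of_le fun k _ => hfle b k).1 (h1 b (Finset.mem_univ b)) k
    (Finset.mem_range.2 hk)
  have h3 : Submodule.span ℝ (Lam U b k y) = Submodule.span ℝ (Lam U b k z) :=
    Submodule.eq_of_le_of_finrank_eq (hle b k) h2
  refine Subset.antisymm (fun v hv => ?_) (lam_sub U hdy hz b k)
  exact lam_rev U hdy hz b k hv (h3 ▸ Submodule.subset_span hv)

/-- closures of orbits are invariant -/
lemma inv_closure_orb (U : UAct ι d) {y : Matrix ι ι ℝ} (hy : y.det = 1) :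
    Inv U (closure (Orb U y)) := by
  refine ⟨isClosed_closure, fun x hx => det_closure_orb U hy hx, fun w x hx => ?_,
    fun γ hγ x hx => ?_⟩
  · have hc : Continuous fun x : Matrix ι ι ℝ => U.u w * x := continuous_const.mul continuous_id
    refine map_mem_closure (f := fun x : Matrix ι ι ℝ => U.u w * x) hc hx ?_
    rintro x ⟨w', γ, hγ, rfl⟩
    exact ⟨w + w', γ, hγ, by rw [U.add]; simp only [mul_assoc]⟩
  · have hc : Continuous fun x : Matrix ι ι ℝ => x * γ := continuous_id.mul continuous_const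
    refine map_mem_closure (f := fun x : Matrix ι ι ℝ => x * γ) hc hx ?_
    rintro x ⟨w', γ', hγ', rfl⟩
    exact ⟨w', γ' * γ, gam_mul hγ' hγ, by simp only [mul_assoc]⟩

lemma closure_orb_sub (U : UAct ι d) {X : Set (Matrix ι ι ℝ)} (hX : Inv U X) {y : Matrix ι ι ℝ}
    (hy : y ∈ X) : closure (Orb U y) ⊆ X := by
  apply closure_minimal _ hX.closed
  rintro x ⟨w, γ, hγ, rfl⟩
  exact hX.right γ hγ _ (hX.left w _ hy)

lemma fixL_eq (U : UAct ι d) (b : Bool) (k : ℕ) {z : Matrix ι ι ℝ} (hz : z.det = 1) :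
    FixL U b k z = Lam U b k z := by
  ext v
  unfold FixL Lam
  simp only [mem_ofPred_eq, ract_eq b k hz]
  refine and_congr_right fun _ => forall_congr' fun s => ?_
  rw [ract_eq b k (U.det_one s)]

theorem OC_inv : OC_invStatement := by
  intro ι _ _ d U y hy
  exact ⟨inv_closure_orb U hy, subset_closure (mem_orb_self U y)⟩

theorem extremal : extremalStatement := by
  intro ι _ _ d U L K X hX hne
  obtain ⟨y, hy, hmax⟩ := exists_extremal U L (K + 1) X hX hne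
  have hdy : y.det = 1 := hX.det_one y hy.1
  refine ⟨y, hy, fun z hz b k hk => ?_⟩
  rw [fixL_eq U b k (det_closure_orb U hdy hz.1), fixL_eq U b k hdy]
  exact hmax z hz b k (Nat.lt_succ_of_le hk)

end H13
end QL
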