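import Pool.Agent.Helper13_QL.Lam

/-!
Minimal sets and returns (module M6 `minset` of the project MP_6429f2_nt).
-/

set_option autoImplicit false
open Matrix Polynomial MeasureTheory Set Filter Topology

namespace QL
namespace H13

variable {ι : Type} [Fintype ι] [DecidableEq ι] {d : ℕ}

/-- paths mostly stay near a compact set of nonsingular points -/
def StayC (U : UAct ι d) (L : List (Tube ι)) (X1 : Set (Matrix ι ι ℝ)) (ε : ℝ)
    (C : Set (Matrix ι ι ℝ)) : Prop :=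
  IsCompact C ∧ C ⊆ ns L ∧ ∀ V, IsOpen V → C ⊆ V → ∀ z ∈ X1 ∩ ns L, ∀ θ, GoodDir U z θ →
    ∃ T0 : ℝ, ∀ T ≥ T0, volume {τ ∈ Icc (0 : ℝ) 1 | ∀ γ ∈ Gam ι,
      U.u ((τ * T) • θ) * z * γ ∉ V} ≤ ENNReal.ofReal ε

lemma exists_bound (L : List (Tube ι)) : ∃ K : ℕ, (∀ T ∈ L, T.k ≤ K) ∧ Fintype.card ι ≤ K := by
  induction L with
  | nil => exact ⟨Fintype.card ι, by simp, le_rfl⟩
  | cons T L ih =>
    obtain ⟨K, h1, h2⟩ := ih
    refine ⟨max K T.k, ?_, h2.trans (le_max_left _ _)⟩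
    intro T' hT'
    rcases List.mem_cons.1 hT' with h | h
    · rw [h]; exact le_max_right _ _
    · exact (h1 T' h).trans (le_max_left _ _)

lemma exists_stay (hNL : NLStatement) (hray : UAct_rayStatement) (hunif : unifdataStatement)
    [Nonempty ι] (U : UAct ι d) (L : List (Tube ι)) (hU : UniqL L)
    (X : Set (Matrix ι ι ℝ)) (hX : Inv U X) (hne : (X ∩ ns L).Nonempty) :
    ∃ y0 ∈ X ∩ ns L, ∀ ε > 0, ∃ C, StayC U L (OC U y0) ε C := by
  obtain ⟨K, hK, hK'⟩ := exists_bound L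
  obtain ⟨y0, hy0, hext⟩ := extremal U L K X hX hne
  obtain ⟨κ, hκ, δ, hδ, hdata⟩ := hunif U L K hK hK' y0 hy0.2
  obtain ⟨D, hD⟩ := hray U
  refine ⟨y0, hy0, fun ε hε => ?_⟩
  obtain ⟨C, hC1, hC2, hC3⟩ := hNL ι L hU D κ hκ δ hδ ε hε
  refine ⟨C, hC1, hC2, fun V hV hCV z hz θ hθ => ?_⟩
  obtain ⟨R0, hR0⟩ := hC3 V hV hCV
  obtain ⟨T0, hT0⟩ := hdata z hz.2 (fun b k hk => hext z hz b k hk) θ hθ R0
  refine ⟨T0, fun T hT => ?_⟩
  obtain ⟨P, hP1, hP2⟩ := hD 1 z θ T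
  have hP3 : ev P = fun τ => U.u ((τ * T) • θ) * z := by
    funext τ; rw [hP2, one_mul]
  obtain ⟨h1, h2⟩ := hT0 T hT
  have h3 := hR0 P hP1 (fun τ => by rw [hP3, det_mul, U.det_one, hz.2.1, one_mul])
    (by rw [hP3]; exact h1) (by rw [hP3]; exact h2)
  rw [hP3] at h3
  exact h3

/-- the family for Zorn's lemma -/
def Fam (U : UAct ι d) (L : List (Tube ι)) (X1 : Set (Matrix ι ι ℝ)) :
    Set (Set (Matrix ι ι ℝ)) :=
  {Y | Inv U Y ∧ Y ⊆ X1 ∧ (Y ∩ ns L).Nonempty}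

lemma meets (hgood : goodDir_denseStatement) (U : UAct ι d) (L : List (Tube ι))
    (X1 : Set (Matrix ι ι ℝ)) (C : Set (Matrix ι ι ℝ)) (hC : StayC U L X1 (1 / 2) C)
    {Y : Set (Matrix ι ι ℝ)} (hY : Y ∈ Fam U L X1) : (Y ∩ C).Nonempty := by
  by_contra hcon
  obtain ⟨hinv, hsub, z, hzY, hzn⟩ := hY
  have hCV : C ⊆ Yᶜ := by
    intro c hc hcY
    exact hcon ⟨c, hcY, hc⟩
  obtain ⟨θ, hθ⟩ := (hgood U z hzn.1).nonempty
  obtain ⟨T0, hT0⟩ := hC.2.2 Yᶜ hinv.closed.isOpen_compl hCV z ⟨hsub hzY, hzn⟩ θ hθ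
  have h1 := hT0 T0 le_rfl
  have h2 : {τ ∈ Icc (0 : ℝ) 1 | ∀ γ ∈ Gam ι, U.u ((τ * T0) • θ) * z * γ ∉ Yᶜ} = Icc (0 : ℝ) 1 := by
    ext τ
    simp only [mem_ofPred_eq, mem_compl_iff, not_not, and_iff_left_iff_imp]
    intro _ γ hγ
    exact hinv.right γ hγ _ (hinv.left _ _ hzY)
  rw [h2, Real.volume_Icc] at h1
  have h3 := (ENNReal.ofReal_le_ofReal_iff (by norm_num)).1 h1
  norm_num at h3

lemma exists_minimal (hgood : goodDir_denseStatement) (U : UAct ι d) (L : List (Tube ι))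
    (X1 : Set (Matrix ι ι ℝ)) (C : Set (Matrix ι ι ℝ)) (hC : StayC U L X1 (1 / 2) C)
    (hX1 : X1 ∈ Fam U L X1) : ∃ Y, Minimal (· ∈ Fam U L X1) Y := by
  suffices H : ∀ c ⊆ Fam U L X1, IsChain (· ⊆ ·) c → c.Nonempty →
      ∃ lb ∈ Fam U L X1, ∀ s ∈ c, lb ⊆ s by
    obtain ⟨Y, _, hY⟩ := zorn_superset_nonempty (Fam U L X1) H X1 hX1
    exact ⟨Y, hY⟩
  intro c hc hchain hcne
  refine ⟨⋂₀ c, ?_, fun s hs => sInter_subset_of_mem hs⟩
  obtain ⟨s0, hs0⟩ := hcne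
  have hs0' := hc hs0
  refine ⟨⟨?_, ?_, ?_, ?_⟩, ?_, ?_⟩
  · exact isClosed_sInter fun s hs => (hc hs).1.closed
  · intro x hx
    exact hs0'.1.det_one x (hx s0 hs0)
  · intro w x hx s hs
    exact (hc hs).1.left w x (hx s hs)
  · intro γ hγ x hx s hs
    exact (hc hs).1.right γ hγ x (hx s hs)
  · exact (sInter_subset_of_mem hs0).trans hs0'.2.1
  · have hcl : ∀ U' ∈ (fun s => s ∩ C) '' c, IsCompact U' := by
      rintro _ ⟨s, hs, rfl⟩
      exact hC.1.inter_left (hc hs).1.closed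
    have hne : (⋂₀ ((fun s => s ∩ C) '' c)).Nonempty := by
      have : Nonempty ((fun s => s ∩ C) '' c) := ⟨⟨_, s0, hs0, rfl⟩⟩
      refine IsCompact.nonempty_sInter_of_directed_nonempty_isCompact_isClosed ?_ ?_ hcl
        fun s hs => (hcl s hs).isClosed
      · rintro _ ⟨s, hs, rfl⟩ _ ⟨t, ht, rfl⟩
        rcases hchain.total hs ht with h | h
        · exact ⟨s ∩ C, ⟨s, hs, rfl⟩, Subset.rfl, inter_subset_inter_left _ h⟩
        · exact ⟨t ∩ C, ⟨t, ht, rfl⟩, inter_subset_inter_left _ h, Subset.rfl⟩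
      · rintro _ ⟨s, hs, rfl⟩
        exact meets hgood U L X1 C hC (hc hs)
    obtain ⟨x, hx⟩ := hne
    have hx' : ∀ s ∈ c, x ∈ s ∩ C := fun s hs => hx _ ⟨s, hs, rfl⟩
    exact ⟨x, fun s hs => (hx' s hs).1, hC.2.1 (hx' s0 hs0).2⟩

lemma isOpen_near (η : ℝ) (s γ x' : Matrix ι ι ℝ) :
    IsOpen {z : Matrix ι ι ℝ | ∀ i j, |(s * z * γ - x') i j| < η} := by
  have : {z : Matrix ι ι ℝ | ∀ i j, |(s * z * γ - x') i j| < η}
      = ⋂ i, ⋂ j, {z : Matrix ι ι ℝ | |(s * z * γ - x') i j| < η} := by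
    ext z; simp
  rw [this]
  refine isOpen_iInter_of_finite fun i => isOpen_iInter_of_finite fun j => ?_
  refine isOpen_lt ?_ continuous_const
  have hc : Continuous fun z : Matrix ι ι ℝ => s * z * γ - x' :=
    ((continuous_const.mul continuous_id).mul continuous_const).sub continuous_const
  exact (hc.matrix_elem i j).abs

/-- returns -/
lemma returns (hgood : goodDir_denseStatement) (U : UAct ι d) (L : List (Tube ι))
    (X1 : Set (Matrix ι ι ℝ)) (hX1 : ∀ ε > 0, ∃ C, StayC U L X1 ε C)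
    {Y : Set (Matrix ι ι ℝ)} (hY : Minimal (· ∈ Fam U L X1) Y) :
    ∀ x ∈ Y ∩ ns L, Ret U Y x := by
  rintro x ⟨hxY, hxn⟩ x' hx' ω _ η hη
  obtain ⟨hinv, hsub, hne⟩ := hY.prop
  -- density of orbits
  have hdense : ∀ c ∈ Y ∩ ns L, Y ⊆ closure (Orb U c) := by
    rintro c ⟨hcY, hcn⟩
    have h1 : closure (Orb U c) ∈ Fam U L X1 :=
      ⟨inv_closure_orb U hcn.1, (closure_orb_sub U hinv hcY).trans hsub,
        c, subset_closure (mem_orb_self U c), hcn⟩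
    exact hY.le_of_le h1 (closure_orb_sub U hinv hcY)
  -- constants
  set ρ : ℝ := (η / 4) / (‖ω‖ + 1) with hρ
  have hω1 : 0 < ‖ω‖ + 1 := by positivity
  have hρ0 : 0 < ρ := by positivity
  obtain ⟨θ, hθ, hθd⟩ := (hgood U x hxn.1).exists_dist_lt ω
    (lt_min (by positivity : (0 : ℝ) < η / 4) one_pos)
  rw [dist_eq_norm] at hθd
  have hθ1 : ‖ω - θ‖ < η / 4 := hθd.trans_le (min_le_left _ _)
  have hθ2 : ‖ω - θ‖ < 1 := hθd.trans_le (min_le_right _ _)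
  have hθn : ‖θ‖ ≤ ‖ω‖ + 1 := by
    have h0 : θ = ω - (ω - θ) := by abel
    calc ‖θ‖ = ‖ω - (ω - θ)‖ := by rw [← h0]
      _ ≤ ‖ω‖ + ‖ω - θ‖ := norm_sub_le _ _
      _ ≤ ‖ω‖ + 1 := by linarith
  have hρθ : ρ * ‖θ‖ ≤ η / 4 := by
    calc ρ * ‖θ‖ ≤ ρ * (‖ω‖ + 1) := by gcongr
      _ = η / 4 := by rw [hρ]; field_simp
  set ε : ℝ := ρ / (2 * (1 + ρ)) with hε
  have hε0 : 0 < ε := by positivity
  obtain ⟨C, hC⟩ := hX1 ε hε0
  -- a neighbourhood of `C`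
  have key : ∃ V, IsOpen V ∧ C ⊆ V ∧ ∃ S : ℝ, ∀ z ∈ V ∩ Y, ∃ s : Fin d → ℝ, ‖s‖ ≤ S ∧
      ∃ γ ∈ Gam ι, ∀ i j, |(U.u s * z * γ - x') i j| < η := by
    refine hC.1.induction_on (p := fun A => ∃ V, IsOpen V ∧ A ⊆ V ∧ ∃ S : ℝ, ∀ z ∈ V ∩ Y,
      ∃ s : Fin d → ℝ, ‖s‖ ≤ S ∧ ∃ γ ∈ Gam ι, ∀ i j, |(U.u s * z * γ - x') i j| < η) ?_ ?_ ?_ ?_
    · exact ⟨∅, isOpen_empty, Subset.rfl, 0, fun z hz => absurd hz.1 (notMem_empty z)⟩
    · rintro A B hAB ⟨V, h1, h2, h3⟩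
      exact ⟨V, h1, hAB.trans h2, h3⟩
    · rintro A B ⟨V, h1, h2, S, h3⟩ ⟨V', h1', h2', S', h3'⟩
      refine ⟨V ∪ V', h1.union h1', union_subset_union h2 h2', max S S', ?_⟩
      rintro z ⟨hz | hz, hzY⟩
      · obtain ⟨s, hs, h⟩ := h3 z ⟨hz, hzY⟩
        exact ⟨s, hs.trans (le_max_left _ _), h⟩
      · obtain ⟨s, hs, h⟩ := h3' z ⟨hz, hzY⟩
        exact ⟨s, hs.trans (le_max_right _ _), h⟩
    · intro c hc
      by_cases hcY : c ∈ Y
      · have hcl := hdense c ⟨hcY, hC.2.1 hc⟩ hx'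
        have hop := isOpen_near η 1 1 x'
        have hx'mem : x' ∈ {z : Matrix ι ι ℝ |
            ∀ i j, |((1 : Matrix ι ι ℝ) * z * (1 : Matrix ι ι ℝ) - x') i j| < η} := by
          intro i j
          rw [one_mul, mul_one, sub_self]
          simpa using hη
        obtain ⟨y, hy1, s, γ, hγ, rfl⟩ := mem_closure_iff.1 hcl _ hop hx'mem
        refine ⟨_, mem_nhdsWithin_of_mem_nhds ((isOpen_near η (U.u s) γ x').mem_nhds ?_),
          _, isOpen_near η (U.u s) γ x', Subset.rfl, ‖s‖, ?_⟩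
        · intro i j
          have := hy1 i j
          rwa [one_mul, mul_one] at this
        · rintro z ⟨hz, -⟩
          exact ⟨s, le_rfl, γ, hγ, hz⟩
      · refine ⟨Yᶜ, mem_nhdsWithin_of_mem_nhds (hinv.closed.isOpen_compl.mem_nhds hcY),
          Yᶜ, hinv.closed.isOpen_compl, Subset.rfl, 0, ?_⟩
        rintro z ⟨hz, hzY⟩
        exact absurd hzY hz
  obtain ⟨V, hV, hCV, S, hS⟩ := key
  obtain ⟨T0, hT0⟩ := hC.2.2 V hV hCV x ⟨hsub hxY, hxn⟩ θ hθ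
  refine ⟨max |T0| (2 * S / η), fun T hT => ?_⟩
  have hT1 : |T0| ≤ T := (le_max_left _ _).trans hT
  have hT2 : 2 * S / η ≤ T := (le_max_right _ _).trans hT
  have hTnn : 0 ≤ T := (abs_nonneg _).trans hT1
  have hT3 : T0 ≤ (1 + ρ) * T := by
    have := le_abs_self T0
    nlinarith
  have hvol := hT0 _ hT3
  -- a good time in the window
  have hwin : ∃ τ ∈ Icc (1 / (1 + ρ)) 1, ∃ γ ∈ Gam ι, U.u ((τ * ((1 + ρ) * T)) • θ) * x * γ ∈ V := by
    by_contra hcon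
    push Not at hcon
    have hsubs : Icc (1 / (1 + ρ)) 1 ⊆ {τ ∈ Icc (0 : ℝ) 1 | ∀ γ ∈ Gam ι,
        U.u ((τ * ((1 + ρ) * T)) • θ) * x * γ ∉ V} := by
      intro τ hτ
      refine ⟨⟨le_trans (by positivity) hτ.1, hτ.2⟩, fun γ hγ => hcon τ hτ γ hγ⟩
    have h1 := (measure_mono hsubs).trans hvol
    rw [Real.volume_Icc] at h1
    have h2 := (ENNReal.ofReal_le_ofReal_iff hε0.le).1 h1
    have h3 : 1 - 1 / (1 + ρ) = 2 * ε := by
      rw [hε]; field_simp; ring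
    linarith
  obtain ⟨τ, hτ, γ, hγ, hmem⟩ := hwin
  have hzY : U.u ((τ * ((1 + ρ) * T)) • θ) * x * γ ∈ Y := hinv.right γ hγ _ (hinv.left _ _ hxY)
  obtain ⟨s, hs, γ', hγ', hclose⟩ := hS _ ⟨hmem, hzY⟩
  refine ⟨s + (τ * ((1 + ρ) * T)) • θ, ?_, γ * γ', gam_mul hγ hγ', ?_⟩
  · have hτ1 : 1 ≤ τ * (1 + ρ) := by
      have := hτ.1
      rw [div_le_iff₀ (by positivity)] at this
      exact this
    have hτ2 : τ * (1 + ρ) ≤ 1 + ρ := by
      have := hτ.2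
      nlinarith
    have e1 : s + (τ * ((1 + ρ) * T)) • θ - T • ω
        = s + (T * (τ * (1 + ρ) - 1)) • θ - T • (ω - θ) := by
      module
    rw [e1]
    have hSle : ‖s‖ ≤ η / 2 * T := by
      rw [div_le_iff₀ hη] at hT2
      linarith
    calc ‖s + (T * (τ * (1 + ρ) - 1)) • θ - T • (ω - θ)‖
        ≤ ‖s‖ + ‖(T * (τ * (1 + ρ) - 1)) • θ‖ + ‖T • (ω - θ)‖ :=
          (norm_sub_le _ _).trans (add_le_add (norm_add_le _ _) le_rfl)
      _ ≤ η / 2 * T + T * (ρ * ‖θ‖) + T * (η / 4) := by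
          gcongr
          · rw [norm_smul, Real.norm_eq_abs, abs_of_nonneg (by nlinarith), mul_assoc]
            gcongr
            linarith
          · rw [norm_smul, Real.norm_eq_abs, abs_of_nonneg hTnn]
            gcongr
      _ ≤ η / 2 * T + T * (η / 4) + T * (η / 4) := by gcongr
      _ = η * T := by ring
  · intro i j
    have h1 := hclose i j
    have e2 : U.u (s + (τ * ((1 + ρ) * T)) • θ) * x * (γ * γ')
        = U.u s * (U.u ((τ * ((1 + ρ) * T)) • θ) * x * γ) * γ' := by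
      rw [U.add]
      simp only [mul_assoc]
    rw [e2]
    exact h1

theorem minset (hNL : NLStatement) (hray : UAct_rayStatement) (hunif : unifdataStatement)
    (hgood : goodDir_denseStatement) : minsetStatement := by
  intro ι _ _ _ d U L hU _ X hX hne
  obtain ⟨y0, hy0, hstay⟩ := exists_stay hNL hray hunif U L hU X hX hne
  obtain ⟨C, hC⟩ := hstay (1 / 2) (by norm_num)
  have hmem : OC U y0 ∈ Fam U L (OC U y0) :=
    ⟨inv_closure_orb U hy0.2.1, Subset.rfl, y0, subset_closure (mem_orb_self U y0), hy0.2⟩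
  obtain ⟨Y, hY⟩ := exists_minimal hgood U L (OC U y0) C hC hmem
  obtain ⟨hinv, hsub, hne'⟩ := hY.prop
  exact ⟨Y, hsub.trans (closure_orb_sub U hX hy0.1), hinv, hne',
    returns hgood U L (OC U y0) hstay hY⟩

end H13
end QL
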